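import Pool.Agent.H71.PW.EDen

/-!
# Bor: fewer than `min 𝔟 𝔰` Borel partitions (100 lines)

`𝓡` a set of Borel sets with `#𝓡 < bCard`, `#𝓡 < sCard`, `ℵ₀ < bCard`, `ℵ₀ < sCard`. `exists_bc` gives a code `c₀ R` for each `R ∈ 𝓡`.
`ι = 𝓡 × List ℕ`, `c (R, l) = l.foldl sb (c₀ R)`; closed under `sb` (`List.foldl_append`). `#(ι × Finset ℕ)` etc. are
`≤ max #𝓡 ℵ₀` (`Cardinal.mk_prod`, `Cardinal.mul_le_max`, `mk_list_eq_aleph0`-type lemmas: `List ℕ`, `Finset ℕ` are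
countable: `Cardinal.mk_le_aleph0`), hence `< bCard`, `< sCard`. `exists_omType`: `Ω`, `#Ω = ℵ₁`; `h_dense` for the families
`EE c r`, `r : Ω` (`EE_dense`), at `A = univ`: an infinite `W` in all `EE c r`, so `Gall (ev (c i)) W` for all `i`
(take `r = rk Ω (c i)`). For `R ∈ 𝓡`, `i = (R, [])`: `Dec (fam R) ∅ (W ∩ Ioi k)`, which is `AlmostHomog R W`
(`ind_setOf`, see the end of `almostHomog_of_borel` in H60/AD/Lower).
-/

set_option autoImplicit false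

open Set Cardinal

namespace Pool.Agent.H71.PW

open Pool.Agent.H60.AD Pool.Agent.H60.BS

private theorem Bor_card {κ : Cardinal.{0}} (h0 : ℵ₀ < κ) {A B : Type} (hA : #A < κ)
    [Countable B] : #(A × B) < κ := by
  rw [← Cardinal.mul_def]
  exact Cardinal.mul_lt_of_lt h0.le hA (lt_of_le_of_lt Cardinal.mk_le_aleph0 h0)

theorem bor_homog (h : ℵ₁ < hCard) (hb0 : ℵ₀ < bCard) (hs0 : ℵ₀ < sCard)
    {𝓡 : Set (Set (ℕ → Bool))} (hb : #𝓡 < bCard) (hs : #𝓡 < sCard)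
    (hR : ∀ R ∈ 𝓡, @MeasurableSet (ℕ → Bool) (borel (ℕ → Bool)) R) :
    ∃ W : Set ℕ, W.Infinite ∧ ∀ R ∈ 𝓡, AlmostHomog R W := by
  obtain ⟨Ω, _, hΩ⟩ := exists_omType
  have hex : ∀ R : 𝓡, ∃ c : BC, ev c = fam (R : Set (ℕ → Bool)) := fun R =>
    exists_bc (hR R.1 R.2)
  choose c₀ hc₀ using hex
  let c : (𝓡 × List ℕ) → BC := fun i => i.2.foldl sb (c₀ i.1)
  have hc : ∀ i n, ∃ j, c j = sb (c i) n := by
    rintro ⟨R, l⟩ n
    refine ⟨(R, l ++ [n]), ?_⟩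
    show (l ++ [n]).foldl sb (c₀ R) = sb (l.foldl sb (c₀ R)) n
    rw [List.foldl_append]
    rfl
  have hι : #(𝓡 × List ℕ) < bCard := Bor_card hb0 hb
  have hι' : #((𝓡 × List ℕ) × Finset ℕ) < bCard := Bor_card hb0 hι
  have hιs : #(((𝓡 × List ℕ) × Finset ℕ) × Finset ℕ) < sCard :=
    Bor_card hs0 (Bor_card hs0 (Bor_card hs0 hs))
  have hD := h_dense (ι := Ω) (by rw [hΩ]; exact h) (fun r : Ω => EE c r)
    (fun r => EE_dense h hιs hι' hι c hc r)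
  obtain ⟨W, ⟨hW, hWE⟩, -⟩ := hD.dense univ infinite_univ
  refine ⟨W, hW, fun R hRR => ?_⟩
  have hG : Gall (ev (c (⟨R, hRR⟩, []))) W := (hWE (rk Ω (c (⟨R, hRR⟩, [])))).2 _ le_rfl
  have he : ev (c (⟨R, hRR⟩, [])) = fam R := hc₀ ⟨R, hRR⟩
  rw [he] at hG
  obtain ⟨k, hd⟩ := hG ∅
  refine ⟨k, ?_⟩
  rcases hd with hd | hd
  · left
    intro x hx hxs
    have h1 := hd _ hxs hx
    rw [Finset.coe_empty, empty_union] at h1
    have h2 : ind {n | x n = true} ∈ R := h1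
    rwa [ind_setOf] at h2
  · right
    intro x hx hxs h2
    refine hd _ hxs hx ?_
    rw [Finset.coe_empty, empty_union]
    show ind {n | x n = true} ∈ R
    rwa [ind_setOf]

end Pool.Agent.H71.PW
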