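import Pool.Agent.H71.PW.Dich

/-!
# Bra: branches through a sparse set (110 lines)

`W` infinite, `m` with `hP`: for `k ∈ W`, `m ≤ k`, `s` with all elements `≤ k`, `z ∈ W`, `k < z`:
(1) `s ∉ TI → insert z s ∉ TI`, (2) `s ∉ T0 → ∀ r, s ∈ Tr r → ∃ q < r, insert z s ∈ Tr q`, and `h0`: `s ∈ T0 → insert z s ∈ T0`
is NOT needed. Choose `k₀ ∈ W`, `m ≤ k₀`. Let `X ⊆ W ∩ Ioi k₀` be infinite, `x 0 < x 1 < ..` its increasing enumeration
(`Nat.nth (· ∈ X)` or `Nat.orderEmbeddingOfSet X`), `t n = {x 0, .., x (n-1)}` (`Finset.image x (Finset.range n)`), so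
`t (n+1) = insert (x n) (t n)`, all elements of `t n` are `≤ k` with `k = k₀` (n = 0) or `k = x (n-1)`, and `k < x n`.
(a) `∅ ∈ TI`: some `t n ∈ T0`: otherwise by (2) and induction a strictly decreasing sequence `r n` with
`t n ∈ Tr (r n)`, contradiction to well-foundedness (`WellFounded.not_rel_apply_succ` or `RelEmbedding.not_wellFounded`).
(b) `∅ ∉ TI`: `t n ∉ TI` for all `n` by (1). In the conclusion `t n` is described as a finite set `t` which is an
initial segment of `X`: `↑t ⊆ X` and every element of `X` which is `≤` some element of `t` is in `t`.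
For (b): every finite initial segment `t` of `X` is `t n` for `n = t.card`; simplest: prove `t ∉ TI` by induction on
`t.card` (remove the maximum: `t = insert (max t) (t.erase (max t))`, `t.erase (max t)` is an initial segment, all its
elements are `≤ k` where `k` is `k₀` or the maximum of `t.erase (max t)`).
-/

set_option autoImplicit false

open Set Cardinal

namespace Pool.Agent.H71.PW

open Pool.Agent.H60.AD Pool.Agent.H60.BS

variable {Ω : Type} [OmType Ω]

/-- `t` is an initial segment of `X`. -/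
def Ini (t : Finset ℕ) (X : Set ℕ) : Prop := ↑t ⊆ X ∧ ∀ x ∈ X, (∃ j ∈ t, x ≤ j) → x ∈ t

private theorem bra_step {W X : Set ℕ} {m k₀ : ℕ} {Q : Finset ℕ → Finset ℕ → Prop} (hk0 : k₀ ∈ W) (hm : m ≤ k₀)
    (hX : X ⊆ W ∩ Ioi k₀)
    (hP : ∀ k ∈ W, m ≤ k → ∀ s : Finset ℕ, (∀ j ∈ s, j ≤ k) → ∀ z ∈ W, k < z → Q s (insert z s))
    (s : Finset ℕ) (hs : (s : Set ℕ) ⊆ X) (z : ℕ) (hz : z ∈ X) (hlt : ∀ j ∈ s, j < z) :
    Q s (insert z s) := by
  rcases s.eq_empty_or_nonempty with rfl | hne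
  · exact hP k₀ hk0 hm ∅ (by simp) z (hX hz).1 (hX hz).2
  · have hmem := s.max'_mem hne
    have h1 := hX (hs (Finset.mem_coe.2 hmem))
    exact hP _ h1.1 (hm.trans (le_of_lt h1.2)) s (fun j hj => s.le_max' j hj) z (hX hz).1 (hlt _ hmem)

private theorem bra_nth {X : Set ℕ} (hX : X.Infinite) (n : ℕ) :
    Ini ((Finset.range n).image (Nat.nth (· ∈ X))) X := by
  classical
  have hinf : (Set.ofPred (fun x => x ∈ X)).Infinite := hX
  constructor
  · intro y hy
    rw [Finset.coe_image] at hy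
    obtain ⟨i, -, rfl⟩ := hy
    exact Nat.nth_mem_of_infinite hinf i
  · rintro x hx ⟨j, hj, hxj⟩
    rw [Finset.mem_image] at hj ⊢
    obtain ⟨i, hi, rfl⟩ := hj
    refine ⟨Nat.count (· ∈ X) x, ?_, Nat.nth_count hx⟩
    rw [← Nat.nth_count (p := (· ∈ X)) hx] at hxj
    have := (Nat.nth_le_nth hinf).1 hxj
    rw [Finset.mem_range] at hi ⊢
    exact lt_of_le_of_lt this hi

theorem bra_yes {T0 : Set (Finset ℕ)} {Z W : Set ℕ} (hW : W.Infinite) {m : ℕ}
    (hP : ∀ k ∈ W, m ≤ k → ∀ s : Finset ℕ, (∀ j ∈ s, j ≤ k) → ∀ z ∈ W, k < z → s ∉ T0 →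
      ∀ r : Ω, s ∈ Tr T0 Z r → ∃ q, q < r ∧ insert z s ∈ Tr T0 Z q)
    (h : (∅ : Finset ℕ) ∈ TI Ω T0 Z) :
    ∃ k, ∀ X ⊆ W ∩ Ioi k, X.Infinite → ∃ t : Finset ℕ, Ini t X ∧ t ∈ T0 := by
  classical
  obtain ⟨k₀, hk0, hmk⟩ := hW.exists_gt m
  refine ⟨k₀, fun X hX hinf => ?_⟩
  by_contra hcon
  push Not at hcon
  have hmem : ∀ n, Nat.nth (· ∈ X) n ∈ X := fun n => Nat.nth_mem_of_infinite hinf n
  have hmono : StrictMono (Nat.nth (· ∈ X)) := Nat.nth_strictMono hinf
  have key : ∀ (r : Ω) (n : ℕ), (Finset.range n).image (Nat.nth (· ∈ X)) ∉ Tr T0 Z r := by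
    intro r
    induction r using (OmType.wf (Ω := Ω)).induction with
    | _ r ih =>
      intro n hn
      have hini := bra_nth hinf n
      have hT0 := hcon _ hini
      have hst := bra_step (Q := fun s t => s ∉ T0 → ∀ r : Ω, s ∈ Tr T0 Z r → ∃ q, q < r ∧ t ∈ Tr T0 Z q)
        hk0 hmk.le hX hP _ hini.1 _ (hmem n) (by
          intro j hj
          rw [Finset.mem_image] at hj
          obtain ⟨i, hi, rfl⟩ := hj
          exact hmono (Finset.mem_range.1 hi)) hT0 r hn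
      obtain ⟨q, hq, hq2⟩ := hst
      refine ih q hq (n + 1) ?_
      rw [Finset.range_add_one, Finset.image_insert]
      exact hq2
  obtain ⟨r, hr⟩ := h
  exact key r 0 (by simpa using hr)

theorem bra_no {T0 : Set (Finset ℕ)} {Z W : Set ℕ} (hW : W.Infinite) {m : ℕ}
    (hP : ∀ k ∈ W, m ≤ k → ∀ s : Finset ℕ, (∀ j ∈ s, j ≤ k) → ∀ z ∈ W, k < z →
      s ∉ TI Ω T0 Z → insert z s ∉ TI Ω T0 Z)
    (h : (∅ : Finset ℕ) ∉ TI Ω T0 Z) :
    ∃ k, ∀ X ⊆ W ∩ Ioi k, X.Infinite → ∀ t : Finset ℕ, Ini t X → t ∉ T0 := by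
  classical
  obtain ⟨k₀, hk0, hmk⟩ := hW.exists_gt m
  refine ⟨k₀, fun X hX hinf => ?_⟩
  have key : ∀ (n : ℕ) (t : Finset ℕ), t.card = n → Ini t X → t ∉ TI Ω T0 Z := by
    intro n
    induction n with
    | zero =>
      intro t ht _
      rw [Finset.card_eq_zero] at ht
      rw [ht]
      exact h
    | succ n ih =>
      intro t ht hini
      have hne : t.Nonempty := by
        rw [← Finset.card_pos, ht]
        exact Nat.succ_pos n
      have hmx := t.max'_mem hne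
      have hlt : ∀ j ∈ t.erase (t.max' hne), j < t.max' hne := by
        intro j hj
        exact lt_of_le_of_ne (t.le_max' j (Finset.mem_of_mem_erase hj)) (Finset.ne_of_mem_erase hj)
      have hini' : Ini (t.erase (t.max' hne)) X := by
        refine ⟨fun x hx => hini.1 (Finset.mem_coe.2 (Finset.mem_of_mem_erase (Finset.mem_coe.1 hx))), ?_⟩
        rintro x hx ⟨j, hj, hxj⟩
        refine Finset.mem_erase.2 ⟨?_, hini.2 x hx ⟨j, Finset.mem_of_mem_erase hj, hxj⟩⟩
        exact ne_of_lt (lt_of_le_of_lt hxj (hlt j hj))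
      have h1 := ih (t.erase (t.max' hne)) (by
        rw [Finset.card_erase_of_mem hmx, ht]
        rfl) hini'
      have h2 := bra_step (Q := fun s t => s ∉ TI Ω T0 Z → t ∉ TI Ω T0 Z) hk0 hmk.le hX hP _ hini'.1 _
        (hini.1 (Finset.mem_coe.2 hmx)) hlt h1
      rwa [Finset.insert_erase hmx] at h2
  intro t ht hT
  refine key t.card t rfl ht ⟨Classical.arbitrary Ω, ?_⟩
  rw [mem_Tr]
  exact Or.inl hT

end Pool.Agent.H71.PW
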