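import Pool.Agent.H71.PW.Defs

/-!
# Cnt: countably many open dense families (50 lines)

`infinite`, `down`: immediate (for `down` use `IsOpenDense.down` for each `i`). `dense`: if `ι` is empty take `B = A`.
Otherwise enumerate `ι` by `g : ℕ → ι` onto (`exists_surjective_nat`). Recursion: `A ⊇ B 0 ⊇ B 1 ⊇ ..` infinite with
`B n ∈ D (g n)` (dense). Choose `b : ℕ → ℕ` strictly increasing with `b n ∈ B n` (infinite sets; for instance
`Set.Infinite.exists_gt`). `B = range b`: infinite, `B ⊆ A` and `B \ B n ⊆ {b 0, .., b (n-1)}` finite, so `B ∈ D (g n)`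
by `down`.
-/

set_option autoImplicit false

open Set Cardinal

namespace Pool.Agent.H71.PW

open Pool.Agent.H60.AD Pool.Agent.H60.BS

theorem cnt_dense {ι : Type} [Countable ι] (D : ι → Set (Set ℕ)) (hD : ∀ i, IsOpenDense (D i)) :
    IsOpenDense {A | A.Infinite ∧ ∀ i, A ∈ D i} := by
  refine ⟨fun A hA => hA.1,
    fun A hA B hB hBA => ⟨hB, fun i => (hD i).down A (hA.2 i) B hB hBA⟩, ?_⟩
  intro A hA
  rcases isEmpty_or_nonempty ι with he | hne
  · exact ⟨A, ⟨hA, fun i => (he.false i).elim⟩, subset_rfl⟩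
  obtain ⟨g, hg⟩ := exists_surjective_nat ι
  have hstep : ∀ (n : ℕ) (X : {X : Set ℕ // X.Infinite}),
      ∃ Y : {Y : Set ℕ // Y.Infinite}, Y.1 ⊆ X.1 ∧ Y.1 ∈ D (g n) := by
    intro n X
    obtain ⟨Y, hY, hYX⟩ := (hD (g n)).dense X.1 X.2
    exact ⟨⟨Y, (hD (g n)).infinite Y hY⟩, hYX, hY⟩
  choose F hF1 hF2 using hstep
  let B : ℕ → {X : Set ℕ // X.Infinite} :=
    fun n => Nat.rec (F 0 ⟨A, hA⟩) (fun n X => F (n + 1) X) n
  have hanti : ∀ n, (B (n + 1)).1 ⊆ (B n).1 := fun n => hF1 (n + 1) (B n)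
  have hmono : ∀ m n, m ≤ n → (B n).1 ⊆ (B m).1 := by
    intro m n hmn
    induction n, hmn using Nat.le_induction with
    | base => exact subset_rfl
    | succ k _ ih => exact (hanti k).trans ih
  have hBA : ∀ n, (B n).1 ⊆ A := fun n => (hmono 0 n (Nat.zero_le n)).trans (hF1 0 ⟨A, hA⟩)
  have hBD : ∀ n, (B n).1 ∈ D (g n) := by
    intro n
    cases n with
    | zero => exact hF2 0 ⟨A, hA⟩
    | succ k => exact hF2 (k + 1) (B k)
  have hpick : ∀ (n k : ℕ), ∃ m ∈ (B n).1, k < m := fun n k => (B n).2.exists_gt k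
  choose p hp1 hp2 using hpick
  let b : ℕ → ℕ := fun n => Nat.rec (p 0 0) (fun n k => p (n + 1) k) n
  have hbmem : ∀ n, b n ∈ (B n).1 := by
    intro n
    cases n with
    | zero => exact hp1 0 0
    | succ k => exact hp1 (k + 1) (b k)
  have hbmono : StrictMono b := strictMono_nat_of_lt_succ (fun n => hp2 (n + 1) (b n))
  refine ⟨range b, ⟨infinite_range_of_injective hbmono.injective, ?_⟩, ?_⟩
  · intro i
    obtain ⟨n, rfl⟩ := hg i
    refine (hD (g n)).down (B n).1 (hBD n) _ (infinite_range_of_injective hbmono.injective) ?_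
    refine ((finite_lt_nat n).image b).subset ?_
    rintro _ ⟨⟨m, rfl⟩, hm⟩
    refine ⟨m, ?_, rfl⟩
    by_contra h
    exact hm (hmono n m (not_lt.mp h) (hbmem m))
  · rintro _ ⟨n, rfl⟩
    exact hBA n (hbmem n)

end Pool.Agent.H71.PW
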