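import Pool.Agent.H71.PW.Defs

/-!
# Cod: Borel codes (80 lines)

`exists_code`: the σ-algebra `borel _` is `generateFrom {s | IsOpen s}`; `MeasurableSpace.generateFrom_induction` (or
`hU` as `GenerateMeasurable` and its induction): open sets: `.op`; empty set: `.op ∅ isOpen_empty`; complement: `.cmp`
(`fam Uᶜ = (fam U)ᶜ`); union: `.un` (`fam (⋃ n, U n) = ⋃ n, fam (U n)`), with `choose`. See `CR_of_borel` in H60/AD/Ramsey.
`rk_sb`: `lt_ssup` for the countable sets `{rk c}` and `range`. `ROpen_fam`: `ind X ∈ O` open in `ℕ → Bool`: a neighbourhood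
of `ind (s ∪ X)` depends on finitely many coordinates (`isOpen_pi_iff`), all `≤ m`; see `CR_of_isOpen`.
-/

set_option autoImplicit false

open Set Cardinal

namespace Pool.Agent.H71.PW

open Pool.Agent.H60.AD Pool.Agent.H60.BS

variable {Ω : Type} [OmType Ω]

theorem exists_bc {U : Set (ℕ → Bool)} (hU : @MeasurableSet (ℕ → Bool) (borel (ℕ → Bool)) U) :
    ∃ c : BC, ev c = fam U := by
  have hU' : MeasurableSpace.GenerateMeasurable {s : Set (ℕ → Bool) | IsOpen s} U := hU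
  induction hU' with
  | basic u hu => exact ⟨.op u hu, rfl⟩
  | empty => exact ⟨.op ∅ isOpen_empty, rfl⟩
  | compl t ht ih =>
    obtain ⟨c, hc⟩ := ih ht
    refine ⟨.cmp c, ?_⟩
    rw [ev, hc]
    rfl
  | iUnion f hf ih =>
    choose c hc using fun n => ih n (hf n)
    refine ⟨.un c, ?_⟩
    rw [ev]
    ext X
    simp [hc, fam]

theorem rk_cmp (c : BC) : rk Ω c < rk Ω (.cmp c) := by
  rw [rk.eq_def Ω (.cmp c)]
  exact lt_ssup (countable_singleton _) rfl

theorem rk_un (f : ℕ → BC) (n : ℕ) : rk Ω (f n) < rk Ω (.un f) := by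
  rw [rk.eq_def Ω (.un f)]
  exact lt_ssup (countable_range _) (mem_range_self n)

theorem ROpen_fam {O : Set (ℕ → Bool)} (hO : IsOpen O) (s : Finset ℕ) (A : Set ℕ) :
    ROpen {X | ↑s ∪ X ∈ fam O} A := by
  classical
  intro X hX hXi hXU
  have hXU' : ind ((s : Set ℕ) ∪ X) ∈ O := hXU
  obtain ⟨F, u, hF, hu⟩ := isOpen_pi_iff.1 hO _ hXU'
  refine ⟨F.sup id, fun Y hY hYi hYX => ?_⟩
  show ind ((s : Set ℕ) ∪ Y) ∈ O
  apply hu
  intro i hi
  have hik : i ≤ F.sup id := Finset.le_sup (f := id) hi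
  have heq : ind ((s : Set ℕ) ∪ Y) i = ind ((s : Set ℕ) ∪ X) i := by
    have h2 : i ∈ Y ↔ i ∈ X := by
      have h3 : i ∈ Y ∩ Iic (F.sup id) ↔ i ∈ X ∩ Iic (F.sup id) := by rw [hYX]
      constructor
      · intro h
        exact (h3.1 ⟨h, hik⟩).1
      · intro h
        exact (h3.2 ⟨h, hik⟩).1
    have h1 : i ∈ (s : Set ℕ) ∪ Y ↔ i ∈ (s : Set ℕ) ∪ X := by
      constructor
      · rintro (h | h)
        · exact Or.inl h
        · exact Or.inr (h2.1 h)
      · rintro (h | h)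
        · exact Or.inl h
        · exact Or.inr (h2.2 h)
    rw [Bool.eq_iff_iff, ind_eq_true, ind_eq_true]
    exact h1
  rw [heq]
  exact (hF i hi).2

end Pool.Agent.H71.PW
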