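import Pool.Agent.H71.PW.Defs

/-!
# SLoc: fewer than `𝔰` sets (50 lines)

`e : ℕ → ℕ` injective with values in `Z` (`hZ.natEmbedding`), `F = range (fun i => e ⁻¹' U i)`, `#F ≤ #ι < 𝔰`, so `F` is
not splitting (otherwise `sCard ≤ #F` by `csInf_le'`): there is an infinite `z` such that for all `i` one of
`z ∩ e ⁻¹' U i`, `z \ e ⁻¹' U i` is finite. `Z' = e '' z`; `e '' z ∩ U i = e '' (z ∩ e ⁻¹' U i)`.
-/

set_option autoImplicit false

open Set Cardinal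

namespace Pool.Agent.H71.PW

open Pool.Agent.H60.AD Pool.Agent.H60.BS

theorem s_loc {ι : Type} (hι : #ι < sCard) (U : ι → Set ℕ) {Z : Set ℕ} (hZ : Z.Infinite) :
    ∃ Z' ⊆ Z, Z'.Infinite ∧ ∀ i, NSp Z' (U i) := by
  classical
  obtain ⟨e, he, hr⟩ : ∃ e : ℕ → ℕ, Function.Injective e ∧ ∀ n, e n ∈ Z :=
    ⟨fun n => (hZ.natEmbedding Z n : ℕ), fun a b h => (hZ.natEmbedding Z).injective (Subtype.ext h),
      fun n => (hZ.natEmbedding Z n).2⟩
  have hF : ∃ z : Set ℕ, z.Infinite ∧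
      ∀ A ∈ range (fun i => e ⁻¹' U i), (z ∩ A).Finite ∨ (z \ A).Finite := by
    by_contra hcon
    push Not at hcon
    have h1 : sCard ≤ #(range (fun i => e ⁻¹' U i)) :=
      csInf_le' ⟨_, rfl, fun z hz => by
        obtain ⟨A, hA, h1, h2⟩ := hcon z hz
        exact ⟨A, hA, h1, h2⟩⟩
    exact absurd (h1.trans mk_range_le) (not_le.2 hι)
  obtain ⟨z, hz, hzF⟩ := hF
  refine ⟨e '' z, ?_, hz.image he.injOn, fun i => ?_⟩
  · rintro _ ⟨n, _, rfl⟩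
    exact hr n
  · rcases hzF _ ⟨i, rfl⟩ with h | h
    · left
      refine (h.image e).subset ?_
      rintro _ ⟨⟨n, hn, rfl⟩, hU⟩
      exact ⟨n, ⟨hn, hU⟩, rfl⟩
    · right
      refine (h.image e).subset ?_
      rintro _ ⟨⟨n, hn, rfl⟩, hU⟩
      exact ⟨n, ⟨hn, hU⟩, rfl⟩

end Pool.Agent.H71.PW
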