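import Pool.Agent.H71.PW.Rnk
import Pool.Agent.H71.PW.Cnt
import Pool.Agent.H71.PW.SLoc

/-!
# DDen: `DD T0 r` is open dense (80 lines)

`infinite`: clear. `down`: `Z ∈ DD T0 r`, `Z'` infinite, `(Z' \ Z).Finite`: for `q ≤ r` the set `Ur (T0 i) Z' q s` is
`Ur (T0 i) Z q s` (`Ur_congr`), and `NSp Z U` implies `NSp Z' U` (`Z' ∩ U ⊆ (Z' \ Z) ∪ (Z ∩ U)` and the same for the
difference). `dense`, strong induction on `r`: given `A`, the countably many families `DD T0 q`, `q < r`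
(`OmType.countable_Iio`, `Countable (Iio r)`) are open dense, so `cnt_dense` gives an infinite `Z₀ ⊆ A` in all of them.
`s_loc` for the family `U (i, s) = Ur (T0 i) Z₀ r s`, index type `ι × Finset ℕ` (hypothesis `hι`): `Z₁ ⊆ Z₀` infinite,
not split. For `q ≤ r`: `Ur (T0 i) Z₁ q s = Ur (T0 i) Z₀ q s` by `Ur_congr` (`Z₀ ∈ DD T0 q'` for `q' < q`); for `q < r`
`NSp Z₀` gives `NSp Z₁`, for `q = r` it is the choice of `Z₁`.
-/

set_option autoImplicit false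

open Set Cardinal

namespace Pool.Agent.H71.PW

open Pool.Agent.H60.AD Pool.Agent.H60.BS

variable {Ω : Type} [OmType Ω]

theorem NSp.mono {Z Z' U : Set ℕ} (h : NSp Z U) (hs : (Z' \ Z).Finite) : NSp Z' U := by
  rcases h with h | h
  · left
    refine (hs.union h).subset ?_
    rintro x ⟨hx, hu⟩
    by_cases hz : x ∈ Z
    · exact Or.inr ⟨hz, hu⟩
    · exact Or.inl ⟨hx, hz⟩
  · right
    refine (hs.union h).subset ?_
    rintro x ⟨hx, hu⟩
    by_cases hz : x ∈ Z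
    · exact Or.inr ⟨hz, hu⟩
    · exact Or.inl ⟨hx, hz⟩

theorem DD_dense {ι : Type} (hι : #(ι × Finset ℕ) < sCard) (T0 : ι → Set (Finset ℕ)) (r : Ω) :
    IsOpenDense (DD T0 r) := by
  have hdown : ∀ r : Ω, ∀ A ∈ DD T0 r, ∀ B : Set ℕ, B.Infinite → (B \ A).Finite → B ∈ DD T0 r := by
    rintro r A ⟨hA, h⟩ B hB hBA
    refine ⟨hB, fun q hq i s => ?_⟩
    rw [Ur_congr hB hBA (fun q' hq' s' => h q' (hq'.le.trans hq) i s') s]
    exact (h q hq i s).mono hBA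
  refine (OmType.wf (Ω := Ω)).induction (C := fun r => IsOpenDense (DD T0 r)) r ?_
  intro r ih
  refine ⟨fun A hA => hA.1, hdown r, fun A hA => ?_⟩
  have : Countable (Iio r) := (OmType.countable_Iio r).to_subtype
  obtain ⟨Z0, ⟨hZ0, h0⟩, hZA⟩ :=
    (cnt_dense (fun q : Iio r => DD T0 (q : Ω)) (fun q => ih q q.2)).dense A hA
  obtain ⟨Z1, hZ1s, hZ1, h1⟩ := s_loc hι (fun p : ι × Finset ℕ => Ur (T0 p.1) Z0 r p.2) hZ0
  have hd : (Z1 \ Z0).Finite := by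
    rw [Set.sdiff_eq_empty.2 hZ1s]
    exact finite_empty
  refine ⟨Z1, ⟨hZ1, fun q hq i s => ?_⟩, hZ1s.trans hZA⟩
  have hq0 : ∀ q' < q, ∀ s', NSp Z0 (Ur (T0 i) Z0 q' s') := fun q' hq' s' =>
    (h0 ⟨q', hq'.trans_le hq⟩).2 q' le_rfl i s'
  rw [Ur_congr hZ1 hd hq0 s]
  rcases hq.lt_or_eq with hlt | rfl
  · exact ((h0 ⟨q, hlt⟩).2 q le_rfl i s).mono hd
  · exact h1 (i, s)

end Pool.Agent.H71.PW
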