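import Pool.Agent.H60.AD.Lower
import Pool.Agent.H60.AD.Upper
import Pool.Agent.H60.BS.Ord

/-!
# Defs: Borel partitions of `[ω]^ω` and the cardinals `𝔟`, `𝔰`, `𝔥`

THEOREM: if `ℵ₁ < 𝔥` then `𝔭𝔞𝔯_ω = min 𝔟 𝔰`; so `min 𝔟 𝔰 ≤ 𝔞_Borel`.

`Ω` is a well order of type `ω₁`. For a set `T0` of finite sets and an infinite set `Z`, `Tr T0 Z r`
is the set of the finite `s` of rank at most `r`: `s ∈ T0`, or for almost all `z ∈ Z` the set
`insert z s` has a smaller rank.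
-/

set_option autoImplicit false

open Set Cardinal

namespace Pool.Agent.H71.PW

open Pool.Agent.H60.AD Pool.Agent.H60.BS

/-- `U` does not split `Z`. -/
def NSp (Z U : Set ℕ) : Prop := (Z ∩ U).Finite ∨ (Z \ U).Finite

/-- After every finite set `s` some final part of `W` decides `R`. -/
def Gall (R : Set (Set ℕ)) (W : Set ℕ) : Prop := ∀ s : Finset ℕ, ∃ k, Dec R s (W ∩ Ioi k)

/-- `R` is open relative to the infinite subsets of `A`. -/
def ROpen (R : Set (Set ℕ)) (A : Set ℕ) : Prop :=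
  ∀ X ⊆ A, X.Infinite → X ∈ R → ∃ m, ∀ Y ⊆ A, Y.Infinite → Y ∩ Iic m = X ∩ Iic m → Y ∈ R

variable {Ω : Type} [OmType Ω]

/-- Finite sets of rank at most `r`. -/
noncomputable def Tr (T0 : Set (Finset ℕ)) (Z : Set ℕ) : Ω → Set (Finset ℕ) :=
  (OmType.wf (Ω := Ω)).fix fun r T =>
    {s | s ∈ T0 ∨ {z ∈ Z | ¬ ∃ q, ∃ h : q < r, insert z s ∈ T q h}.Finite}

theorem mem_Tr (T0 : Set (Finset ℕ)) (Z : Set ℕ) (r : Ω) (s : Finset ℕ) :
    s ∈ Tr T0 Z r ↔ s ∈ T0 ∨ {z ∈ Z | ¬ ∃ q, q < r ∧ insert z s ∈ Tr T0 Z q}.Finite := by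
  unfold Tr
  rw [WellFounded.fix_eq]
  simp only [mem_ofPred_eq, exists_prop]

/-- The points `z` for which `insert z s` has rank less than `r`. -/
def Ur (T0 : Set (Finset ℕ)) (Z : Set ℕ) (r : Ω) (s : Finset ℕ) : Set ℕ :=
  {z | ∃ q, q < r ∧ insert z s ∈ Tr T0 Z q}

/-- The finite sets with a rank. -/
def TI (Ω : Type) [OmType Ω] (T0 : Set (Finset ℕ)) (Z : Set ℕ) : Set (Finset ℕ) :=
  {s | ∃ r : Ω, s ∈ Tr T0 Z r}

/-- The sets `Z` that are not split at the stages up to `r`. -/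
def DD {ι : Type} (T0 : ι → Set (Finset ℕ)) (r : Ω) : Set (Set ℕ) :=
  {Z | Z.Infinite ∧ ∀ q ≤ r, ∀ i s, NSp Z (Ur (T0 i) Z q s)}

/-- Borel codes. -/
inductive BC : Type
  | op (O : Set (ℕ → Bool)) (h : IsOpen O) : BC
  | cmp (c : BC) : BC
  | un (f : ℕ → BC) : BC

/-- The family coded by `c`. -/
def ev : BC → Set (Set ℕ)
  | .op O _ => fam O
  | .cmp c => (ev c)ᶜ
  | .un f => ⋃ n, ev (f n)

/-- The subcodes. -/
def sb : BC → ℕ → BC
  | .op O h, _ => .op O h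
  | .cmp c, _ => c
  | .un f, n => f n

/-- A rank for codes. -/
noncomputable def rk (Ω : Type) [OmType Ω] : BC → Ω
  | .op _ _ => Classical.arbitrary Ω
  | .cmp c => ssup {rk Ω c}
  | .un f => ssup (range fun n => rk Ω (f n))

/-- The sets `W` that decide all codes of rank at most `r`. -/
def EE {ι : Type} (c : ι → BC) (r : Ω) : Set (Set ℕ) :=
  {W | W.Infinite ∧ ∀ i, rk Ω (c i) ≤ r → Gall (ev (c i)) W}

end Pool.Agent.H71.PW
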