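import Pool.Agent.H71.PW.Rnk

/-!
# Dich: the dichotomy at a set in all `DD T0 r` (70 lines)

`hZ : ∀ r q s, q ≤ r → NSp Z (Ur T0 Z q s)`.
`dich_not`: `s ∉ TI Ω T0 Z`. For every `z` with `insert z s ∈ TI` choose `r z` with `insert z s ∈ Tr T0 Z (r z)`; by
`OmType.bdd` (a countable set: image of a set of natural numbers) there is `R` with `r z < R` for all these `z`. So
`{z | insert z s ∈ TI} ⊆ Ur T0 Z R s`. `NSp Z (Ur T0 Z R s)`: if `Z \ Ur` is finite then `s ∈ Tr T0 Z R` (`mem_Tr'`),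
contradiction; so `Z ∩ Ur` is finite.
`dich_rank`: `s ∉ T0`: for almost all `z ∈ Z`: for EVERY `r` with `s ∈ Tr T0 Z r` there is `q < r` with
`insert z s ∈ Tr T0 Z q`. If there is no such `r` nothing is to be shown; otherwise let `r₀` be the least one
(`OmType.wf`, `WellFounded.min`); `mem_Tr'` at `r₀`: `Z \ Ur T0 Z r₀ s` is finite, and for `z ∈ Ur T0 Z r₀ s` there is
`q < r₀ ≤ r`.
-/

set_option autoImplicit false

open Set Cardinal

namespace Pool.Agent.H71.PW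

open Pool.Agent.H60.AD Pool.Agent.H60.BS

variable {Ω : Type} [OmType Ω]

theorem dich_not {T0 : Set (Finset ℕ)} {Z : Set ℕ} (hZ : ∀ (q : Ω) s, NSp Z (Ur T0 Z q s))
    {s : Finset ℕ} (hs : s ∉ TI Ω T0 Z) : {z ∈ Z | insert z s ∈ TI Ω T0 Z}.Finite := by
  have hch : ∀ z : {z : ℕ // insert z s ∈ TI Ω T0 Z}, ∃ r : Ω, insert z.1 s ∈ Tr T0 Z r :=
    fun z => z.2
  choose r hr using hch
  obtain ⟨R, hR⟩ := OmType.bdd (range r) (countable_range r)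
  rcases hZ R s with h | h
  · refine h.subset ?_
    rintro z ⟨hz1, hz2⟩
    exact ⟨hz1, r ⟨z, hz2⟩, hR _ (mem_range_self _), hr ⟨z, hz2⟩⟩
  · exact absurd ⟨R, (mem_Tr' T0 Z R s).mpr (Or.inr h)⟩ hs

theorem dich_rank {T0 : Set (Finset ℕ)} {Z : Set ℕ} {s : Finset ℕ} (hs : s ∉ T0) :
    {z ∈ Z | ¬ ∀ r : Ω, s ∈ Tr T0 Z r → ∃ q, q < r ∧ insert z s ∈ Tr T0 Z q}.Finite := by
  by_cases hne : ∃ r : Ω, s ∈ Tr T0 Z r
  · have hS : {r : Ω | s ∈ Tr T0 Z r}.Nonempty := hne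
    have hr0 : s ∈ Tr T0 Z ((OmType.wf (Ω := Ω)).min _ hS) :=
      (OmType.wf (Ω := Ω)).min_mem _ hS
    have hmin : ∀ r : Ω, s ∈ Tr T0 Z r → (OmType.wf (Ω := Ω)).min _ hS ≤ r := fun r hr => by
      have h1 : r ∈ {r : Ω | s ∈ Tr T0 Z r} := hr
      exact not_lt.mp ((OmType.wf (Ω := Ω)).not_lt_min _ h1)
    rcases (mem_Tr' T0 Z _ s).mp hr0 with h | h
    · exact absurd h hs
    · refine h.subset ?_
      rintro z ⟨hz1, hz2⟩
      refine ⟨hz1, fun hz3 => hz2 fun r hr => ?_⟩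
      obtain ⟨q, hq, hq2⟩ := hz3
      exact ⟨q, lt_of_lt_of_le hq (hmin r hr), hq2⟩
  · refine (Set.finite_empty).subset ?_
    rintro z ⟨_, hz2⟩
    exact absurd (fun r hr => absurd ⟨r, hr⟩ hne) hz2

end Pool.Agent.H71.PW
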