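import Pool.Agent.H71.PW.Defs

/-!
# HLoc: fewer than `𝔥` open dense families (70 lines)

`infinite`, `down`: immediate. `dense`: let `A` be infinite, `e : ℕ → ℕ` strictly increasing with range `A`
(`Nat.nth (· ∈ A)`, or `Nat.orderEmbeddingOfSet`, or `hA.natEmbedding`: injective with values in `A` is enough).
`D' i = {B | B.Infinite ∧ e '' B ∈ D i}` is open dense (dense: for infinite `B` take `C ∈ D i`, `C ⊆ e '' B`, and
`e ⁻¹' C ⊆ B` as `e` is injective, `e '' (e ⁻¹' C) = C`). `H = range D'` has `#H ≤ #ι < 𝔥` (`mk_range_le`), so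
`⋂₀ H ≠ ∅` (otherwise `hCard ≤ #H` by `csInf_le'`). If `ι` is empty take `B = A`; otherwise a member `B` of `⋂₀ H` is
infinite, and `e '' B ⊆ A` works.
-/

set_option autoImplicit false

open Set Cardinal

namespace Pool.Agent.H71.PW

open Pool.Agent.H60.AD Pool.Agent.H60.BS

theorem h_dense {ι : Type} (hι : #ι < hCard) (D : ι → Set (Set ℕ)) (hD : ∀ i, IsOpenDense (D i)) :
    IsOpenDense {A | A.Infinite ∧ ∀ i, A ∈ D i} := by
  refine ⟨fun A hA => hA.1, fun A hA B hB hBA => ⟨hB, fun i => (hD i).down A (hA.2 i) B hB hBA⟩,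
    fun A hA => ?_⟩
  rcases isEmpty_or_nonempty ι with hE | hN
  · exact ⟨A, ⟨hA, fun i => isEmptyElim i⟩, subset_rfl⟩
  obtain ⟨f, hf, hfA⟩ : ∃ f : ℕ → ℕ, Function.Injective f ∧ ∀ n, f n ∈ A :=
    ⟨fun n => (hA.natEmbedding A n : ℕ),
      fun a b h => (hA.natEmbedding A).injective (Subtype.ext h),
      fun n => (hA.natEmbedding A n).2⟩
  set D' : ι → Set (Set ℕ) := fun i => {B | B.Infinite ∧ f '' B ∈ D i} with hD'
  have hod : ∀ i, IsOpenDense (D' i) := by
    intro i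
    refine ⟨fun B hB => hB.1, fun B hB C hC hCB => ⟨hC, ?_⟩, fun B hB => ?_⟩
    · refine (hD i).down (f '' B) hB.2 (f '' C) (hC.image hf.injOn) ?_
      refine (hCB.image f).subset ?_
      rintro _ ⟨⟨x, hx, rfl⟩, hnx⟩
      exact ⟨x, ⟨hx, fun hxB => hnx ⟨x, hxB, rfl⟩⟩, rfl⟩
    · obtain ⟨C, hC, hCB⟩ := (hD i).dense (f '' B) (hB.image hf.injOn)
      have hfC : f '' (f ⁻¹' C) = C := by
        apply Set.image_preimage_eq_of_subset
        intro x hx
        obtain ⟨y, -, rfl⟩ := hCB hx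
        exact ⟨y, rfl⟩
      refine ⟨f ⁻¹' C, ⟨?_, ?_⟩, ?_⟩
      · refine Set.Infinite.of_image f ?_
        rw [hfC]
        exact (hD i).infinite C hC
      · rw [hfC]
        exact hC
      · intro x hx
        obtain ⟨y, hy, hyx⟩ := hCB hx
        rwa [← hf hyx]
  have hne : (⋂₀ (Set.range D')).Nonempty := by
    rw [Set.nonempty_iff_ne_empty]
    intro he
    have h1 : hCard ≤ #(Set.range D') :=
      csInf_le' ⟨Set.range D', rfl, by rintro _ ⟨i, rfl⟩; exact hod i, he⟩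
    exact absurd (h1.trans mk_range_le) (not_le.2 hι)
  obtain ⟨B, hB⟩ := hne
  have hB' : ∀ i, B ∈ D' i := fun i => hB (D' i) ⟨i, rfl⟩
  have hBi : B.Infinite := (hB' hN.some).1
  refine ⟨f '' B, ⟨hBi.image hf.injOn, fun i => (hB' i).2⟩, ?_⟩
  rintro _ ⟨x, -, rfl⟩
  exact hfA x

end Pool.Agent.H71.PW
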