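import Pool.Agent.H71.PW.Defs

/-!
# Spr: sparse subsets (90 lines)

For `i` and `k` let `f i k` be such that `P i s z` for all `z ∈ Z`, `f i k < z` and all the finitely many `s` with all
elements `≤ k` (`s ∈ (Finset.range (k+1)).powerset`). As `#ι < 𝔟` the family `range f` is dominated: there are `g` with
`∀ i, ∃ m, ∀ n ≥ m, f i n ≤ g n` (otherwise `bCard ≤ #(range f) ≤ #ι` by `csInf_le'`). Choose `w : ℕ → ℕ` strictly
increasing with `w n ∈ Z` and `g (w n) < w (n+1)` (`Set.Infinite.exists_gt`), `W = range w`. For `k = w n ≥ m` and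
`z ∈ W`, `k < z`: `z ≥ w (n+1) > g (w n) ≥ f i k`.
-/

set_option autoImplicit false

open Set Cardinal

namespace Pool.Agent.H71.PW

open Pool.Agent.H60.AD Pool.Agent.H60.BS

theorem spr {ι : Type} (hι : #ι < bCard) (P : ι → Finset ℕ → ℕ → Prop) {Z : Set ℕ}
    (hZ : Z.Infinite) (h : ∀ i s, {z ∈ Z | ¬ P i s z}.Finite) :
    ∃ W ⊆ Z, W.Infinite ∧ ∀ i, ∃ m, ∀ k ∈ W, m ≤ k → ∀ s : Finset ℕ, (∀ j ∈ s, j ≤ k) →
      ∀ z ∈ W, k < z → P i s z := by
  classical
  have h1 : ∀ i k, ∃ b : ℕ, ∀ s : Finset ℕ, (∀ j ∈ s, j ≤ k) → ∀ z ∈ Z, b < z → P i s z := by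
    intro i k
    have hfin : (⋃ s ∈ ((Finset.range (k+1)).powerset : Set (Finset ℕ)),
        {z ∈ Z | ¬ P i s z}).Finite :=
      (Finset.finite_toSet _).biUnion fun s _ => h i s
    obtain ⟨b, hb⟩ := hfin.bddAbove
    refine ⟨b, fun s hs z hz hbz => ?_⟩
    by_contra hP
    have hmem : s ∈ ((Finset.range (k+1)).powerset : Set (Finset ℕ)) := by
      rw [Finset.mem_coe, Finset.mem_powerset]
      intro j hj
      exact Finset.mem_range.mpr (Nat.lt_succ_of_le (hs j hj))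
    have hmem2 : z ∈ ⋃ s ∈ ((Finset.range (k+1)).powerset : Set (Finset ℕ)),
        {z ∈ Z | ¬ P i s z} := mem_biUnion hmem ⟨hz, hP⟩
    exact absurd (hb hmem2) (not_le.mpr hbz)
  choose f hf using h1
  have h2 : ∃ g : ℕ → ℕ, ∀ i, ∃ m, ∀ n, m ≤ n → f i n ≤ g n := by
    by_contra hcon
    push Not at hcon
    have hb : bCard ≤ #(range f) := by
      apply csInf_le'
      refine ⟨range f, rfl, fun g => ?_⟩
      obtain ⟨i, hi⟩ := hcon g
      exact ⟨f i, ⟨i, rfl⟩, hi⟩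
    exact absurd (hb.trans mk_range_le) (not_le.mpr hι)
  obtain ⟨g, hg⟩ := h2
  have h3 : ∀ b : ℕ, ∃ z ∈ Z, b < z := fun b => hZ.exists_gt b
  choose nx hnx1 hnx2 using h3
  let w : ℕ → ℕ := fun n => Nat.rec (nx 0) (fun _ a => nx (max a (g a))) n
  have hw0 : ∀ n, w n ∈ Z := by
    intro n
    cases n with
    | zero => exact hnx1 0
    | succ n => exact hnx1 _
  have hw1 : ∀ n, max (w n) (g (w n)) < w (n+1) := fun n => hnx2 _
  have hmono : StrictMono w :=
    strictMono_nat_of_lt_succ fun n => lt_of_le_of_lt (le_max_left _ _) (hw1 n)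
  refine ⟨range w, ?_, infinite_range_of_injective hmono.injective, fun i => ?_⟩
  · rintro _ ⟨n, rfl⟩
    exact hw0 n
  · obtain ⟨m, hm⟩ := hg i
    refine ⟨m, ?_⟩
    rintro _ ⟨n, rfl⟩ hmn s hs _ ⟨n', rfl⟩ hlt
    have hnn : n < n' := hmono.lt_iff_lt.mp hlt
    have hle : w (n+1) ≤ w n' := hmono.monotone hnn
    exact hf i (w n) s hs _ (hw0 n')
      (lt_of_le_of_lt ((hm _ hmn).trans (le_max_right _ _)) ((hw1 n).trans_le hle))

end Pool.Agent.H71.PW
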