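import Pool.Agent.H71.PW.Bra
import Pool.Agent.H71.PW.DDen
import Pool.Agent.H71.PW.HLoc
import Pool.Agent.H71.PW.Spr
import Pool.Agent.H60.BS.Exi

/-!
# Opn: few relatively open families (90 lines)

`exists_omType` gives `Ω` with `#Ω = ℵ₁`. `T0 i = {t : Finset ℕ | ∀ Y ⊆ A, Y.Infinite → Ini t Y → Y ∈ R i}`. By `DD_dense`
(`hs`) and `h_dense` for the index type `Ω` (`h : ℵ₁ < hCard`) there is an infinite `Z ⊆ A` in all `DD T0 r`, so
`NSp Z (Ur (T0 i) Z q s)` for all `q i s`. `spr` (`hb`) for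
`P i s z := (s ∉ TI → insert z s ∉ TI) ∧ (s ∉ T0 i → ∀ r, s ∈ Tr r → ∃ q < r, insert z s ∈ Tr q)` (finiteness:
`dich_not` if `s ∉ TI`, `dich_rank` if `s ∉ T0 i`; a conjunction: union of two finite sets): `W ⊆ Z` infinite with `m i`.
If `∅ ∈ TI Ω (T0 i) Z`: `bra_yes` gives `k` such that every infinite `X ⊆ W ∩ Ioi k` has an initial segment in `T0 i`, so
`X ∈ R i` (`X ⊆ A`). If `∅ ∉ TI`: `bra_no` gives `k` such that no initial segment of `X` is in `T0 i`; if `X ∈ R i` then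
`ROpen` gives `n` such that all `Y` with `Y ∩ Iic n = X ∩ Iic n` are in `R i`; take `x ∈ X`, `n ≤ x` and
`t = X ∩ Iic x` (a `Finset`: `(Finset.range (x+1)).filter`), an initial segment of `X`; every `Y` with `Ini t Y` has
`Y ∩ Iic n = X ∩ Iic n` (as `x ∈ t`), so `t ∈ T0 i`, contradiction. `Dec (R i) ∅ _` with `↑∅ ∪ X = X`
(`Dec` takes a `Set ℕ`; write `∅`).
-/

set_option autoImplicit false

open Set Cardinal

namespace Pool.Agent.H71.PW

open Pool.Agent.H60.AD Pool.Agent.H60.BS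


theorem open_dec {ι : Type} (h : ℵ₁ < hCard) (hs : #(ι × Finset ℕ) < sCard) (hb : #ι < bCard)
    (R : ι → Set (Set ℕ)) {A : Set ℕ} (hA : A.Infinite) (hR : ∀ i, ROpen (R i) A) :
    ∃ W ⊆ A, W.Infinite ∧ ∀ i, ∃ k, Dec (R i) ∅ (W ∩ Ioi k) := by
  classical
  obtain ⟨Ω, instΩ, hΩ⟩ := exists_omType
  let T0 : ι → Set (Finset ℕ) := fun i => {t | ∀ Y ⊆ A, Y.Infinite → Ini t Y → Y ∈ R i}
  have hD := h_dense (ι := Ω) (by rw [hΩ]; exact h) (fun r => DD T0 r) (fun r => DD_dense hs T0 r)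
  obtain ⟨Z, hZA, hZ, hZD⟩ : ∃ Z ⊆ A, Z.Infinite ∧ ∀ r : Ω, Z ∈ DD T0 r := by
    obtain ⟨Z, hZm, hZA⟩ := hD.dense A hA
    exact ⟨Z, hZA, hZm.1, hZm.2⟩
  have hN : ∀ i (q : Ω) s, NSp Z (Ur (T0 i) Z q s) := fun i q s => (hZD q).2 q le_rfl i s
  obtain ⟨W, hWZ, hW, hWP⟩ := spr hb
    (fun i s z => (s ∉ TI Ω (T0 i) Z → insert z s ∉ TI Ω (T0 i) Z) ∧
      (s ∉ T0 i → ∀ r : Ω, s ∈ Tr (T0 i) Z r → ∃ q, q < r ∧ insert z s ∈ Tr (T0 i) Z q)) hZ (by
      intro i s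
      have h1 : {z ∈ Z | ¬ (s ∉ TI Ω (T0 i) Z → insert z s ∉ TI Ω (T0 i) Z)}.Finite := by
        by_cases hs1 : s ∈ TI Ω (T0 i) Z
        · convert Set.finite_empty
          ext z
          simp [hs1]
        · refine (dich_not (hN i) hs1).subset ?_
          rintro z ⟨hz, hz2⟩
          refine ⟨hz, ?_⟩
          by_contra hc
          exact hz2 (fun _ => hc)
      have h2 : {z ∈ Z | ¬ (s ∉ T0 i → ∀ r : Ω, s ∈ Tr (T0 i) Z r →
          ∃ q, q < r ∧ insert z s ∈ Tr (T0 i) Z q)}.Finite := by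
        by_cases hs1 : s ∈ T0 i
        · convert Set.finite_empty
          ext z
          simp [hs1]
        · refine (dich_rank (Ω := Ω) (Z := Z) hs1).subset ?_
          rintro z ⟨hz, hz2⟩
          refine ⟨hz, ?_⟩
          intro hc
          exact hz2 (fun _ => hc)
      refine (h1.union h2).subset ?_
      rintro z ⟨hz, hz2⟩
      by_cases h3 : s ∉ TI Ω (T0 i) Z → insert z s ∉ TI Ω (T0 i) Z
      · right
        exact ⟨hz, fun h4 => hz2 ⟨h3, h4⟩⟩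
      · left
        exact ⟨hz, h3⟩)
  refine ⟨W, hWZ.trans hZA, hW, fun i => ?_⟩
  obtain ⟨m, hm⟩ := hWP i
  by_cases he : (∅ : Finset ℕ) ∈ TI Ω (T0 i) Z
  · obtain ⟨k, hk⟩ := bra_yes (Ω := Ω) (T0 := T0 i) (Z := Z) hW (m := m)
      (fun k hk hmk s hs z hz hkz => (hm k hk hmk s hs z hz hkz).2) he
    refine ⟨k, Or.inl fun X hX hXi => ?_⟩
    obtain ⟨t, ht1, ht2⟩ := hk X hX hXi
    rw [Set.empty_union]
    exact ht2 X (fun x hx => hZA (hWZ (hX hx).1)) hXi ht1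
  · obtain ⟨k, hk⟩ := bra_no (Ω := Ω) (T0 := T0 i) (Z := Z) hW (m := m)
      (fun k hk hmk s hs z hz hkz => (hm k hk hmk s hs z hz hkz).1) he
    refine ⟨k, Or.inr fun X hX hXi hXR => ?_⟩
    rw [Set.empty_union] at hXR
    have hXA : X ⊆ A := fun x hx => hZA (hWZ (hX hx).1)
    obtain ⟨n, hn⟩ := hR i X hXA hXi hXR
    obtain ⟨x, hxX, hnx⟩ := hXi.exists_gt n
    have hmem : ∀ y, y ∈ (Finset.range (x + 1)).filter (fun y => y ∈ X) ↔ y ≤ x ∧ y ∈ X := by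
      intro y
      rw [Finset.mem_filter, Finset.mem_range, Nat.lt_succ_iff]
    have hIni : Ini ((Finset.range (x + 1)).filter (fun y => y ∈ X)) X := by
      refine ⟨fun y hy => ((hmem y).1 (Finset.mem_coe.1 hy)).2, ?_⟩
      rintro y hy ⟨j, hj, hyj⟩
      exact (hmem y).2 ⟨hyj.trans ((hmem j).1 hj).1, hy⟩
    apply hk X hX hXi _ hIni
    intro Y hY hYi hIY
    apply hn Y hY hYi
    have hxt := (hmem x).2 ⟨le_rfl, hxX⟩
    ext y
    constructor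
    · rintro ⟨hy, hyn⟩
      have hyn' : y ≤ n := hyn
      exact ⟨((hmem y).1 (hIY.2 y hy ⟨x, hxt, by omega⟩)).2, hyn⟩
    · rintro ⟨hy, hyn⟩
      have hyn' : y ≤ n := hyn
      exact ⟨hIY.1 (Finset.mem_coe.2 ((hmem y).2 ⟨by omega, hy⟩)), hyn⟩

end Pool.Agent.H71.PW
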