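import Pool.Agent.H71.PW.Goo
import Pool.Agent.H71.PW.Opn
import Pool.Agent.H71.PW.Cod
import Pool.Agent.H71.PW.Cnt

/-!
# EDen: `EE c r` is open dense (110 lines)

`c : ι → BC` is closed under subcodes (`hc`). `infinite`: clear; `down`: `gall_mono`. `dense`, strong induction on `r`: given
`A`; the families `EE c q`, `q < r`, are open dense and countably many, so `cnt_dense` gives an infinite `Z ⊆ A` in all
of them: `Gall (ev (c i)) Z` for all `i` with `rk Ω (c i) < r`. `good_of_gall` for the index type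
`{i // rk Ω (c i) < r}` (`#` at most `#ι`: `mk_subtype_le`, `hb`): `W₁ ⊆ Z` infinite with `Good (ev (c i)) W₁` for these `i`.
`open_dec` at `W₁` for the index type `{i // rk Ω (c i) ≤ r ∧ (c i is .op or .un)} × Finset ℕ` and the families
`{X | ↑s ∪ X ∈ ev (c i)}` (relatively open by `ROpen_fam` resp. `ropen_union`, since the subcodes `f n` of `.un f` are
of the form `c j` (`hc`) with a smaller rank (`rk_un`)): `W ⊆ W₁` with `∃ k, Dec {X | ↑s ∪ X ∈ ev (c i)} ∅ (W ∩ Ioi k)`, and
`dec_shift` (H60/AD/Ramsey) gives `Dec (ev (c i)) ↑s (W ∩ Ioi k)`, that is `Gall (ev (c i)) W`. For `c i = .cmp d`: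
`d = c j` (`hc`), `rk d < rk (c i) ≤ r`, so `Good (ev d) W₁`, `gall_of_good`, `gall_mono`, `gall_compl`. Cardinals: the
index types of `open_dec` inject into `ι × Finset ℕ` and `(ι × Finset ℕ) × Finset ℕ` (hypotheses `hb`, `hs`); to avoid
subtypes one may use the index type `ι × Finset ℕ` and the family which is `univ` (`ROpen` trivially) in the other cases.
-/

set_option autoImplicit false

open Set Cardinal

namespace Pool.Agent.H71.PW

open Pool.Agent.H60.AD Pool.Agent.H60.BS

variable {Ω : Type} [OmType Ω]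

theorem EE_dense {ι : Type} (h : ℵ₁ < hCard) (hs : #((ι × Finset ℕ) × Finset ℕ) < sCard)
    (hb : #(ι × Finset ℕ) < bCard) (hb' : #ι < bCard) (c : ι → BC)
    (hc : ∀ i n, ∃ j, c j = sb (c i) n) (r : Ω) : IsOpenDense (EE c r) := by
  classical
  induction r using (OmType.wf (Ω := Ω)).induction with
  | _ r ih =>
  refine ⟨fun A hA => hA.1, fun A hA B hB hBA => ⟨hB, fun i hi => gall_mono (hA.2 i hi) hBA⟩, ?_⟩
  intro A hA
  have hcnt : Countable {q : Ω // q < r} := (OmType.countable_Iio r).to_subtype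
  have hD := cnt_dense (fun q : {q : Ω // q < r} => EE c q.1) (fun q => ih q.1 q.2)
  obtain ⟨Z, ⟨hZ, hZD⟩, hZA⟩ := hD.dense A hA
  obtain ⟨W₁, hW₁Z, hW₁, hG⟩ := good_of_gall (ι := {i : ι // rk Ω (c i) < r})
    (lt_of_le_of_lt (mk_subtype_le _) hb') (fun i => ev (c i.1)) hZ
    (fun i => (hZD ⟨rk Ω (c i.1), i.2⟩).2 i.1 le_rfl)
  obtain ⟨W, hWW, hW, hWD⟩ := open_dec h hs hb
    (fun p : ι × Finset ℕ => if rk Ω (c p.1) ≤ r ∧ ∀ d, c p.1 ≠ .cmp d then
      {X | ↑p.2 ∪ X ∈ ev (c p.1)} else univ) hW₁ (by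
      rintro ⟨i, s⟩
      dsimp only
      split_ifs with hp
      · obtain ⟨hp1, hp2⟩ := hp
        cases hci : c i with
        | op O hO => exact ROpen_fam hO s W₁
        | cmp d => exact absurd hci (hp2 d)
        | un f =>
          have hgood : ∀ n, Good (ev (f n)) W₁ := by
            intro n
            obtain ⟨j, hj⟩ := hc i n
            rw [hci] at hj
            have hj' : c j = f n := hj
            have hlt : rk Ω (c j) < r := by
              rw [hj']
              refine lt_of_lt_of_le (rk_un f n) ?_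
              rw [← hci]
              exact hp1
            have h1 := hG ⟨j, hlt⟩
            rw [← hj']
            exact h1
          exact ropen_union hgood s
      · intro X _ _ _
        exact ⟨0, fun Y _ _ _ => mem_univ Y⟩)
  refine ⟨W, ⟨hW, fun i hi => ?_⟩, (hWW.trans hW₁Z).trans hZA⟩
  have hmain : (∀ d, c i ≠ .cmp d) → Gall (ev (c i)) W := by
    intro hp2 s
    obtain ⟨k, hk⟩ := hWD (i, s)
    have hp : rk Ω (c i) ≤ r ∧ ∀ d, c i ≠ .cmp d := ⟨hi, hp2⟩
    dsimp only at hk
    rw [if_pos hp] at hk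
    refine ⟨k, ?_⟩
    rcases hk with hk | hk
    · refine Or.inl fun X hX hXi => ?_
      have h1 := hk X hX hXi
      rw [Set.empty_union] at h1
      exact h1
    · refine Or.inr fun X hX hXi h2 => ?_
      have h1 := hk X hX hXi
      rw [Set.empty_union] at h1
      exact h1 h2
  cases hci : c i with
  | op O hO =>
    rw [← hci]
    exact hmain (fun d hd => by rw [hci] at hd; cases hd)
  | un f =>
    rw [← hci]
    exact hmain (fun d hd => by rw [hci] at hd; cases hd)
  | cmp d =>
    obtain ⟨j, hj⟩ := hc i 0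
    rw [hci] at hj
    have hj' : c j = d := hj
    have hlt : rk Ω (c j) < r := by
      rw [hj']
      refine lt_of_lt_of_le (rk_cmp d) ?_
      rw [← hci]
      exact hi
    have h1 : Good (ev (c j)) W₁ := hG ⟨j, hlt⟩
    have h2 : Gall (ev (c j)) W := gall_mono (gall_of_good hW₁ h1) (by
      rw [sdiff_eq_empty.2 hWW]
      exact finite_empty)
    have h3 := gall_compl h2
    rw [hj'] at h3
    exact h3

end Pool.Agent.H71.PW
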