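import Pool.Agent.H71.PW.Defs

/-!
# ParB: `𝔭𝔞𝔯_ω ≤ 𝔟` (110 lines)

The set in the definition of `bCard` is nonempty (`F = univ`: `f = g + 1`), so `csInf_mem` gives an unbounded `F` with
`#F = bCard`. For `f ∈ F` let `f' n = max over j ≤ n of f j` (monotone, `f ≤ f'`). For `f ∈ F` let `R f` be the set of all
`x : ℕ → Bool` such that for some `a < b`: `x a = x b = true`, `x j = false` for all `j < b`, `j ≠ a` (so `a`, `b` are the
first two elements of `x`) and `f' a < b`: open, hence Borel (a union over `a, b` of clopen sets). `𝓡 = R '' F`,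
`#𝓡 ≤ #F`. Let `W` be infinite and suppose `W` is almost homogeneous for all `R f`, `f ∈ F`. The second alternative (no
`X ⊆ W ∩ Ioi m` in `R f`) is impossible: take `a ∈ W ∩ Ioi m` and `b ∈ W`, `b > max a (f' a)`, `X = {a} ∪ (W ∩ Ici b)`. So for
all `f ∈ F` there is `m` such that for all `a < b` in `W ∩ Ioi m`: `f' a < b` (take `X = {a} ∪ (W ∩ Ici b)`). Let
`g n` be the least element of `W` greater than (the least element of `W` that is `≥ n`): for `n > m`,
`a = least element of W with a ≥ n`, `b = g n`: `f n ≤ f' n ≤ f' a < g n`. So `g` eventually dominates every `f ∈ F`,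
a contradiction.
-/

set_option autoImplicit false

open Set Cardinal

namespace Pool.Agent.H71.PW

open Pool.Agent.H60.AD Pool.Agent.H60.BS

private def ParB_mx (f : ℕ → ℕ) (n : ℕ) : ℕ := (Finset.range (n + 1)).sup f

private theorem ParB_le (f : ℕ → ℕ) (n : ℕ) : f n ≤ ParB_mx f n :=
  Finset.le_sup (f := f) (Finset.mem_range.2 (Nat.lt_succ_self n))

private theorem ParB_mono (f : ℕ → ℕ) {n m : ℕ} (h : n ≤ m) : ParB_mx f n ≤ ParB_mx f m :=
  Finset.sup_mono (fun x hx => Finset.mem_range.2 (by have := Finset.mem_range.1 hx; omega))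

private def ParB_R (f : ℕ → ℕ) : Set (ℕ → Bool) :=
  {x | ∃ a b : ℕ, a < b ∧ x a = true ∧ x b = true ∧ (∀ j < b, j ≠ a → x j = false) ∧
    ParB_mx f a < b}

private theorem ParB_open (f : ℕ → ℕ) : IsOpen (ParB_R f) := by
  have h : ParB_R f = ⋃ a : ℕ, ⋃ b : ℕ, {x : ℕ → Bool | a < b ∧ x a = true ∧ x b = true ∧
      (∀ j < b, j ≠ a → x j = false) ∧ ParB_mx f a < b} := by
    ext x
    simp only [ParB_R, Set.mem_ofPred_eq, Set.mem_iUnion]
  rw [h]
  refine isOpen_iUnion fun a => isOpen_iUnion fun b => ?_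
  by_cases hab : a < b ∧ ParB_mx f a < b
  · have h2 : {x : ℕ → Bool | a < b ∧ x a = true ∧ x b = true ∧
        (∀ j < b, j ≠ a → x j = false) ∧ ParB_mx f a < b} =
        ({x | x a = true} ∩ {x | x b = true}) ∩
          ⋂ j ∈ (Finset.range b).filter (fun j => j ≠ a), {x | x j = false} := by
      ext x
      simp only [Set.mem_ofPred_eq, Set.mem_inter_iff, Set.mem_iInter, Finset.mem_filter,
        Finset.mem_range]
      constructor
      · rintro ⟨_, h1, h2, h3, _⟩
        exact ⟨⟨h1, h2⟩, fun j hj => h3 j hj.1 hj.2⟩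
      · rintro ⟨⟨h1, h2⟩, h3⟩
        exact ⟨hab.1, h1, h2, fun j hj hja => h3 j ⟨hj, hja⟩, hab.2⟩
    rw [h2]
    have hc : ∀ (j : ℕ) (c : Bool), IsOpen {x : ℕ → Bool | x j = c} := by
      intro j c
      have : Continuous (fun x : ℕ → Bool => x j) := continuous_apply j
      exact (isOpen_discrete {c}).preimage this
    exact ((hc a true).inter (hc b true)).inter (isOpen_biInter_finset fun j _ => hc j false)
  · have h2 : {x : ℕ → Bool | a < b ∧ x a = true ∧ x b = true ∧
        (∀ j < b, j ≠ a → x j = false) ∧ ParB_mx f a < b} = ∅ := by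
      ext x
      simp only [Set.mem_ofPred_eq, Set.mem_empty_iff_false, iff_false]
      rintro ⟨h1, _, _, _, h5⟩
      exact hab ⟨h1, h5⟩
    rw [h2]
    exact isOpen_empty

private noncomputable def ParB_x (W : Set ℕ) (a b : ℕ) (n : ℕ) : Bool :=
  @decide (n = a ∨ (n ∈ W ∧ b ≤ n)) (Classical.propDecidable _)

private theorem ParB_xt {W : Set ℕ} {a b n : ℕ} :
    ParB_x W a b n = true ↔ (n = a ∨ (n ∈ W ∧ b ≤ n)) := by
  unfold ParB_x
  exact @decide_eq_true_iff _ (Classical.propDecidable _)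

private theorem ParB_xf {W : Set ℕ} {a b n : ℕ} :
    ParB_x W a b n = false ↔ ¬ (n = a ∨ (n ∈ W ∧ b ≤ n)) := by
  unfold ParB_x
  exact @decide_eq_false_iff_not _ (Classical.propDecidable _)

private theorem ParB_inf {W : Set ℕ} (hW : W.Infinite) (a b : ℕ) :
    {n | ParB_x W a b n = true}.Infinite := by
  intro hf
  apply hW
  refine (hf.union (Set.finite_Iio b)).subset ?_
  intro n hn
  by_cases h : b ≤ n
  · left
    exact ParB_xt.2 (Or.inr ⟨hn, h⟩)
  · right
    exact not_le.1 h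

private theorem ParB_sub {W : Set ℕ} {a b m : ℕ} (ha : a ∈ W) (hma : m < a) (hab : a < b) :
    {n | ParB_x W a b n = true} ⊆ W ∩ Set.Ioi m := by
  intro n hn
  rcases ParB_xt.1 hn with h | ⟨h1, h2⟩
  · rw [h]
    exact ⟨ha, hma⟩
  · exact ⟨h1, lt_of_lt_of_le (hma.trans hab) h2⟩

private theorem ParB_key {W : Set ℕ} {f : ℕ → ℕ} {a b : ℕ} (hb : b ∈ W)
    (hab : a < b) : ParB_x W a b ∈ ParB_R f ↔ ParB_mx f a < b := by
  constructor
  · rintro ⟨a', b', h1, h2, h3, h4, h5⟩
    have ha' : a' = a := by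
      rcases lt_or_ge a b' with h | h
      · by_contra hne
        have h6 := h4 a h (fun h7 => hne h7.symm)
        exact (ParB_xf.1 h6) (Or.inl rfl)
      · rcases ParB_xt.1 h2 with h6 | ⟨_, h6⟩
        · exact h6
        · omega
    subst ha'
    have hb' : b' = b := by
      rcases ParB_xt.1 h3 with h6 | ⟨_, h6⟩
      · omega
      · rcases Nat.lt_or_ge b b' with h7 | h7
        · have h8 := h4 b h7 (by omega)
          exact absurd (Or.inr ⟨hb, le_rfl⟩) (ParB_xf.1 h8)
        · omega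
    rw [← hb']
    exact h5
  · intro h
    refine ⟨a, b, hab, ParB_xt.2 (Or.inl rfl), ParB_xt.2 (Or.inr ⟨hb, le_rfl⟩), ?_, h⟩
    intro j hj hja
    apply ParB_xf.2
    rintro (h1 | ⟨_, h1⟩)
    · exact hja h1
    · omega


theorem parCard_le_bCard : parCard ≤ bCard := by
  have hne : {κ : Cardinal.{0} | ∃ F : Set (ℕ → ℕ), #F = κ ∧
      ∀ g : ℕ → ℕ, ∃ f ∈ F, ∀ m : ℕ, ∃ n, m ≤ n ∧ g n < f n}.Nonempty := by
    refine ⟨_, Set.univ, rfl, fun g => ⟨fun n => g n + 1, Set.mem_univ _, fun m => ⟨m, le_rfl, ?_⟩⟩⟩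
    exact Nat.lt_succ_self _
  obtain ⟨F, hF, hunb⟩ := csInf_mem hne
  have hF' : #F = bCard := hF
  have h1 : parCard ≤ #(ParB_R '' F) := by
    refine csInf_le' ⟨ParB_R '' F, rfl, ?_, ?_⟩
    · rintro _ ⟨f, _, rfl⟩
      exact MeasurableSpace.measurableSet_generateFrom (ParB_open f)
    · intro W hW
      by_contra hcon
      push Not at hcon
      have hdom : ∀ f ∈ F, ∃ m, ∀ a ∈ W, m < a → ∀ b ∈ W, a < b → ParB_mx f a < b := by
        intro f hf
        obtain ⟨m, hm⟩ := hcon _ ⟨f, hf, rfl⟩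
        refine ⟨m, fun a ha hma b hb hab => ?_⟩
        rcases hm with h | h
        · exact (ParB_key hb hab).1 (h _ (ParB_inf hW a b) (ParB_sub ha hma hab))
        · exfalso
          obtain ⟨b', hb', hb'2⟩ := hW.exists_gt (max a (ParB_mx f a))
          have hab' : a < b' := lt_of_le_of_lt (le_max_left _ _) hb'2
          exact h _ (ParB_inf hW a b') (ParB_sub ha hma hab')
            ((ParB_key hb' hab').2 (lt_of_le_of_lt (le_max_right _ _) hb'2))
      choose e he1 he2 using fun n => hW.exists_gt n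
      obtain ⟨f, hf, hfg⟩ := hunb (fun n => e (e n))
      obtain ⟨m, hm⟩ := hdom f hf
      obtain ⟨n, hn, hgn⟩ := hfg m
      have h2 := hm (e n) (he1 n) (lt_of_le_of_lt hn (he2 n)) (e (e n)) (he1 _) (he2 _)
      have h3 := ParB_le f n
      have h4 := ParB_mono f (he2 n).le
      have h5 : e (e n) < f n := hgn
      omega
  calc parCard ≤ #(ParB_R '' F) := h1
    _ ≤ #F := mk_image_le
    _ = bCard := hF'

end Pool.Agent.H71.PW
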