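import Pool.Agent.H71.PW.Defs

/-!
# ParS: `𝔭𝔞𝔯_ω ≤ 𝔰` (70 lines)

The set in the definition of `sCard` is nonempty (`F = univ`: for infinite `z` take every second element; or any known
lemma), so `csInf_mem` gives a splitting family `F` with `#F = sCard`. For `S ∈ F` let
`R S = {x : ℕ → Bool | ∃ n, x n = true ∧ (∀ j < n, x j = false) ∧ n ∈ S}` (the minimum of `x` is in `S`): an open, hence
Borel set (union over `n ∈ S` of clopen sets). `𝓡 = R '' F`, `#𝓡 ≤ #F`. For infinite `W` there is `S ∈ F` splitting `W`;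
`W` is not almost homogeneous for `R S`: for every `m` there are `a ∈ W ∩ S`, `b ∈ W \ S` above `m`, and
`W ∩ Ici a`, `W ∩ Ici b` (as characteristic functions) are subsets of `W ∩ Ioi m` in resp. not in `R S`.
-/

set_option autoImplicit false

open Set Cardinal

namespace Pool.Agent.H71.PW

open Pool.Agent.H60.AD Pool.Agent.H60.BS

private theorem ParS_split (z : Set ℕ) (hz : z.Infinite) :
    ∃ A : Set ℕ, (z ∩ A).Infinite ∧ (z \ A).Infinite := by
  classical
  have hm : StrictMono (Nat.nth (· ∈ z)) := Nat.nth_strictMono hz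
  have hmem : ∀ n, Nat.nth (· ∈ z) n ∈ z := fun n => Nat.nth_mem_of_infinite hz n
  refine ⟨range fun n => Nat.nth (· ∈ z) (2 * n), ?_, ?_⟩
  · have h1 : (range fun n => Nat.nth (· ∈ z) (2 * n)).Infinite := by
      apply infinite_range_of_injective
      intro a b h
      have := hm.injective h
      omega
    refine h1.mono ?_
    rintro _ ⟨n, rfl⟩
    exact ⟨hmem _, n, rfl⟩
  · have h1 : (range fun n => Nat.nth (· ∈ z) (2 * n + 1)).Infinite := by
      apply infinite_range_of_injective
      intro a b h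
      have := hm.injective h
      omega
    refine h1.mono ?_
    rintro _ ⟨n, rfl⟩
    refine ⟨hmem _, ?_⟩
    rintro ⟨k, hk⟩
    have := hm.injective hk
    omega

private def ParS_R (S : Set ℕ) : Set (ℕ → Bool) :=
  {x | ∃ n, x n = true ∧ (∀ j < n, x j = false) ∧ n ∈ S}

private theorem ParS_open (S : Set ℕ) : IsOpen (ParS_R S) := by
  have h : ParS_R S = ⋃ n ∈ S, ({x : ℕ → Bool | x n = true} ∩
      ⋂ j ∈ Finset.range n, {x : ℕ → Bool | x j = false}) := by
    ext x
    simp only [ParS_R, mem_ofPred_eq, mem_iUnion, mem_inter_iff, mem_iInter, Finset.mem_range,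
      exists_prop]
    constructor
    · rintro ⟨n, h1, h2, h3⟩
      exact ⟨n, h3, h1, h2⟩
    · rintro ⟨n, h3, h1, h2⟩
      exact ⟨n, h1, h2, h3⟩
  rw [h]
  refine isOpen_biUnion fun n _ => ?_
  refine IsOpen.inter ?_ ?_
  · exact (isOpen_discrete ({true} : Set Bool)).preimage
      (continuous_apply n : Continuous fun x : ℕ → Bool => x n)
  · refine isOpen_biInter_finset fun j _ => ?_
    exact (isOpen_discrete ({false} : Set Bool)).preimage
      (continuous_apply j : Continuous fun x : ℕ → Bool => x j)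

private theorem ParS_min (W S : Set ℕ) {b : ℕ} (hb : b ∈ W) (x : ℕ → Bool)
    (hx : ∀ n, x n = true ↔ n ∈ W ∧ b ≤ n) : x ∈ ParS_R S ↔ b ∈ S := by
  have h0 : ∀ j < b, x j = false := by
    intro j hj
    cases h : x j with
    | false => rfl
    | true => exact absurd ((hx j).mp h).2 (by omega)
  constructor
  · rintro ⟨n, h1, h2, h3⟩
    have h4 := ((hx n).mp h1).2
    have h5 : ¬ b < n := by
      intro h5
      have h6 := h2 b h5
      have h7 := (hx b).mpr ⟨hb, le_refl b⟩
      rw [h6] at h7
      exact Bool.false_ne_true h7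
    have h6 : n = b := by omega
    rw [← h6]
    exact h3
  · intro h
    exact ⟨b, (hx b).mpr ⟨hb, le_refl b⟩, h0, h⟩

theorem parCard_le_sCard : parCard ≤ sCard := by
  classical
  have hne : {κ : Cardinal.{0} | ∃ F : Set (Set ℕ), #F = κ ∧
      ∀ z : Set ℕ, z.Infinite → ∃ A ∈ F, (z ∩ A).Infinite ∧ (z \ A).Infinite}.Nonempty := by
    refine ⟨_, univ, rfl, fun z hz => ?_⟩
    obtain ⟨A, hA⟩ := ParS_split z hz
    exact ⟨A, mem_univ A, hA⟩
  obtain ⟨F, hF, hs⟩ := csInf_mem hne
  have h1 : parCard ≤ #(ParS_R '' F) := by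
    refine csInf_le' ⟨ParS_R '' F, rfl, ?_, ?_⟩
    · rintro _ ⟨S, _, rfl⟩
      exact MeasurableSpace.measurableSet_generateFrom (ParS_open S)
    · intro W hW
      obtain ⟨S, hS, ha, hb⟩ := hs W hW
      refine ⟨ParS_R S, ⟨S, hS, rfl⟩, ?_⟩
      rintro ⟨m, h | h⟩
      · obtain ⟨b, ⟨hbW, hbS⟩, hbm⟩ := hb.exists_gt m
        have hx : ∀ n, (fun n => decide (n ∈ W ∧ b ≤ n)) n = true ↔ n ∈ W ∧ b ≤ n := by
          intro n
          simp
        have hs' : {n | (fun n => decide (n ∈ W ∧ b ≤ n)) n = true} = W ∩ Ici b := by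
          ext n
          simp
        refine hbS ((ParS_min W S hbW _ hx).mp (h _ ?_ ?_))
        · rw [hs']
          have : W ∩ Ici b = W \ Iio b := by
            ext n
            simp
          rw [this]
          exact hW.sdiff (finite_Iio b)
        · rw [hs']
          rintro n ⟨h1, h2⟩
          exact ⟨h1, lt_of_lt_of_le hbm h2⟩
      · obtain ⟨b, ⟨hbW, hbS⟩, hbm⟩ := ha.exists_gt m
        have hx : ∀ n, (fun n => decide (n ∈ W ∧ b ≤ n)) n = true ↔ n ∈ W ∧ b ≤ n := by
          intro n
          simp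
        have hs' : {n | (fun n => decide (n ∈ W ∧ b ≤ n)) n = true} = W ∩ Ici b := by
          ext n
          simp
        refine h _ ?_ ?_ ((ParS_min W S hbW _ hx).mpr hbS)
        · rw [hs']
          have : W ∩ Ici b = W \ Iio b := by
            ext n
            simp
          rw [this]
          exact hW.sdiff (finite_Iio b)
        · rw [hs']
          rintro n ⟨h1, h2⟩
          exact ⟨h1, lt_of_lt_of_le hbm h2⟩
  have h2 : sCard = #F := hF.symm
  rw [h2]
  exact h1.trans Cardinal.mk_image_le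

end Pool.Agent.H71.PW
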