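import Pool.Agent.H71.PW.Bor
import Pool.Agent.H71.PW.ParS
import Pool.Agent.H71.PW.ParB

/-!
# Fin: `ℵ₁ < 𝔥` implies `𝔭𝔞𝔯_ω = min 𝔟 𝔰`
-/

set_option autoImplicit false

open Set Cardinal

namespace Pool.Agent.H71.PW

open Pool.Agent.H60.AD Pool.Agent.H60.BS

theorem hCard_le_parCard : hCard ≤ parCard := by
  obtain ⟨κ, 𝒜, hκ, hB, hmad⟩ := borel_nonempty
  obtain ⟨𝓡₀, h1, h2, h3⟩ := parCard_le hB hmad
  have hne : {κ : Cardinal.{0} | ∃ 𝓡 : Set (Set (ℕ → Bool)), Cardinal.mk 𝓡 = κ ∧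
    (∀ R ∈ 𝓡, @MeasurableSet (ℕ → Bool) (borel (ℕ → Bool)) R) ∧
    ∀ W : Set ℕ, W.Infinite → ∃ R ∈ 𝓡, ¬ AlmostHomog R W}.Nonempty := ⟨_, 𝓡₀, rfl, h2, h3⟩
  refine le_csInf hne ?_
  rintro _ ⟨𝓡, rfl, hR, hW⟩
  obtain ⟨R, hRm, _⟩ := hW Set.univ Set.infinite_univ
  exact hCard_le hR hW ⟨R, hRm⟩

theorem parCard_le_aBorel : parCard ≤ aBorel := by
  refine le_csInf borel_nonempty ?_
  rintro _ ⟨𝒜, rfl, hB, hmad⟩
  obtain ⟨𝓡₀, h1, h2, h3⟩ := parCard_le hB hmad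
  have h4 : parCard ≤ Cardinal.mk 𝓡₀ := csInf_le' ⟨𝓡₀, rfl, h2, h3⟩
  exact h4.trans h1

theorem par_eq (h : ℵ₁ < hCard) : parCard = min bCard sCard := by
  refine le_antisymm (le_min parCard_le_bCard parCard_le_sCard) ?_
  have h1 : ℵ₁ < bCard := (h.trans_le hCard_le_parCard).trans_le parCard_le_bCard
  have h2 : ℵ₁ < sCard := (h.trans_le hCard_le_parCard).trans_le parCard_le_sCard
  have h3 : (ℵ₀ : Cardinal.{0}) < ℵ₁ := Cardinal.aleph0_lt_aleph_one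
  obtain ⟨κ, 𝒜, hκ, hB, hmad⟩ := borel_nonempty
  obtain ⟨𝓡₀, h4, h5, h6⟩ := parCard_le hB hmad
  have hne : {κ : Cardinal.{0} | ∃ 𝓡 : Set (Set (ℕ → Bool)), Cardinal.mk 𝓡 = κ ∧
    (∀ R ∈ 𝓡, @MeasurableSet (ℕ → Bool) (borel (ℕ → Bool)) R) ∧
    ∀ W : Set ℕ, W.Infinite → ∃ R ∈ 𝓡, ¬ AlmostHomog R W}.Nonempty := ⟨_, 𝓡₀, rfl, h5, h6⟩
  refine le_csInf hne ?_
  rintro _ ⟨𝓡, rfl, hR, hW⟩
  by_contra hcon
  rw [not_le, lt_min_iff] at hcon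
  obtain ⟨W, hWi, hWh⟩ := bor_homog h (h3.trans h1) (h3.trans h2) hcon.1 hcon.2 hR
  obtain ⟨R, hRm, hn⟩ := hW W hWi
  exact hn (hWh R hRm)

/-- The main theorem. -/
theorem main (h : ℵ₁ < hCard) : parCard = min bCard sCard ∧ min bCard sCard ≤ aBorel ∧
    (min aCard dCard ≤ min bCard sCard → aBorel = aClosed) := by
  have h1 := par_eq h
  have h2 : min bCard sCard ≤ aBorel := h1 ▸ parCard_le_aBorel
  refine ⟨h1, h2, fun h3 => le_antisymm aBorel_le_aClosed ?_⟩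
  rcases min_le_iff.1 (h3.trans h2) with h4 | h4
  · exact aClosed_le_aCard.trans h4
  · exact aClosed_le_max.trans (max_le le_rfl h4)

end Pool.Agent.H71.PW
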