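import Pool.Agent.H71.PW.Spr

/-!
# Goo: from `Gall` to `Good` and to open families (110 lines)

`good_of_gall`: `spr` for `P i s z := Dec (S i) s (Z ∩ Ici z)` (the bad set is finite: `Gall` gives `k` with
`Dec (S i) s (Z ∩ Ioi k)`, and `Z ∩ Ici z ⊆ Z ∩ Ioi k` for `z > k`, `Dec.mono`). For `W` from `spr`, `k ∈ W`, `m ≤ k` and `s`
below `k`: let `z` be the least element of `W ∩ Ioi k` (`Nat.find`, infinite set); `W ∩ Ioi k ⊆ Z ∩ Ici z`, so
`Dec (S i) s (W ∩ Ioi k)`: this is `Good (S i) W`.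
`gall_of_good`: for `s` take `k ∈ W` with `m ≤ k` and above all elements of `s`.
`gall_mono`: `Gall R W`, `(B \ W).Finite` implies `Gall R B`: for `s` and `k` take `k'` above `k` and above all
elements of `B \ W`; `B ∩ Ioi k' ⊆ W ∩ Ioi k`. `gall_compl`: `Dec Rᶜ s A ↔ Dec R s A`.
`ropen_union`: `X ⊆ W` infinite, `s ∪ X ∈ S n`, `Good (S n) W` with `m`; take `k ∈ X` above `m` and above all elements of
`s`; `t = s ∪ (X ∩ Iic k)` is a finite set with all elements `≤ k`, so `Dec (S n) t (W ∩ Ioi k)`; as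
`s ∪ X = t ∪ (X ∩ Ioi k) ∈ S n` (`union_split` in H60/AD/Ramsey) the first alternative holds; for `Y ⊆ W` infinite with
`Y ∩ Iic k = X ∩ Iic k` also `s ∪ Y = t ∪ (Y ∩ Ioi k) ∈ S n`.
-/

set_option autoImplicit false

open Set Cardinal

namespace Pool.Agent.H71.PW

open Pool.Agent.H60.AD Pool.Agent.H60.BS

private theorem goo_bound (s : Finset ℕ) : ∃ b : ℕ, ∀ i ∈ s, i ≤ b :=
  ⟨s.sup id, fun _ hi => Finset.le_sup (f := id) hi⟩

theorem good_of_gall {ι : Type} (hι : #ι < bCard) (S : ι → Set (Set ℕ)) {Z : Set ℕ}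
    (hZ : Z.Infinite) (h : ∀ i, Gall (S i) Z) :
    ∃ W ⊆ Z, W.Infinite ∧ ∀ i, Good (S i) W := by
  obtain ⟨W, hWZ, hW, hP⟩ := spr hι (fun i s z => Dec (S i) s (Z ∩ Ici z)) hZ (by
    intro i s
    obtain ⟨k, hk⟩ := h i s
    refine (finite_Iic k).subset ?_
    rintro z ⟨_, hz⟩
    by_contra hkz
    simp only [mem_Iic, not_le] at hkz
    exact hz (hk.mono (inter_subset_inter_right _ fun x hx => lt_of_lt_of_le hkz hx)))
  refine ⟨W, hWZ, hW, fun i => ?_⟩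
  obtain ⟨m, hm⟩ := hP i
  refine ⟨m, fun k hk hmk s hs => ?_⟩
  classical
  have hex : ∃ z, z ∈ W ∩ Ioi k := (inf_inter_Ioi hW k).nonempty
  obtain ⟨hzW, hzk⟩ := Nat.find_spec hex
  refine (hm k hk hmk s hs _ hzW hzk).mono ?_
  intro x hx
  exact ⟨hWZ hx.1, Nat.find_min' hex hx⟩

theorem gall_of_good {R : Set (Set ℕ)} {W : Set ℕ} (hW : W.Infinite) (h : Good R W) :
    Gall R W := by
  intro s
  obtain ⟨m, hm⟩ := h
  obtain ⟨b, hb⟩ := goo_bound s
  obtain ⟨k, hk, hbk⟩ := hW.exists_gt (max m b)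
  exact ⟨k, hm k hk ((le_max_left _ _).trans hbk.le) s fun i hi =>
    (hb i hi).trans ((le_max_right _ _).trans hbk.le)⟩

theorem gall_mono {R : Set (Set ℕ)} {W B : Set ℕ} (h : Gall R W) (hB : (B \ W).Finite) :
    Gall R B := by
  intro s
  obtain ⟨k, hk⟩ := h s
  obtain ⟨b, hb⟩ := hB.bddAbove
  refine ⟨max k b, hk.mono ?_⟩
  intro x hx
  have hxk : max k b < x := hx.2
  refine ⟨?_, lt_of_le_of_lt (le_max_left _ _) hxk⟩
  by_contra hxW
  exact absurd (hb ⟨hx.1, hxW⟩) (not_le.mpr (lt_of_le_of_lt (le_max_right _ _) hxk))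

theorem gall_compl {R : Set (Set ℕ)} {W : Set ℕ} (h : Gall R W) : Gall Rᶜ W := by
  intro s
  obtain ⟨k, hk⟩ := h s
  refine ⟨k, ?_⟩
  rcases hk with hk | hk
  · exact Or.inr fun X hX hi hc => hc (hk X hX hi)
  · exact Or.inl fun X hX hi => hk X hX hi

theorem ropen_union {S : ℕ → Set (Set ℕ)} {W : Set ℕ} (h : ∀ n, Good (S n) W) (s : Finset ℕ) :
    ROpen {X | ↑s ∪ X ∈ ⋃ n, S n} W := by
  classical
  intro X hXW hX hXS
  obtain ⟨n, hn⟩ := mem_iUnion.1 hXS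
  obtain ⟨m, hm⟩ := h n
  obtain ⟨b, hb⟩ := goo_bound s
  obtain ⟨k, hk, hbk⟩ := hX.exists_gt (max m b)
  have hfin : (↑s ∪ (X ∩ Iic k) : Set ℕ).Finite :=
    s.finite_toSet.union ((finite_Iic k).subset inter_subset_right)
  have hcoe : (↑hfin.toFinset : Set ℕ) = ↑s ∪ (X ∩ Iic k) := hfin.coe_toFinset
  have hD : Dec (S n) (↑s ∪ (X ∩ Iic k)) (W ∩ Ioi k) := by
    rw [← hcoe]
    refine hm k (hXW hk) ((le_max_left _ _).trans hbk.le) hfin.toFinset ?_
    intro i hi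
    rw [Finite.mem_toFinset] at hi
    rcases hi with hi | hi
    · exact (hb i hi).trans ((le_max_right _ _).trans hbk.le)
    · exact hi.2
  have hXk : ↑s ∪ (X ∩ Iic k) ∪ (X ∩ Ioi k) ∈ S n := by
    rw [← union_split]; exact hn
  have hall : ∀ Y ⊆ W ∩ Ioi k, Y.Infinite → ↑s ∪ (X ∩ Iic k) ∪ Y ∈ S n := by
    rcases hD with hD | hD
    · exact hD
    · exact absurd hXk (hD _ (inter_subset_inter_left _ hXW) (inf_inter_Ioi hX k))
  refine ⟨k, fun Y hYW hY hYX => ?_⟩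
  have : ↑s ∪ Y ∈ S n := by
    rw [union_split (↑s) Y k, hYX]
    exact hall _ (inter_subset_inter_left _ hYW) (inf_inter_Ioi hY k)
  exact mem_iUnion.2 ⟨n, this⟩

end Pool.Agent.H71.PW
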