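import Pool.Agent.H71.PW.Defs

/-!
# Rnk: the ranks do not change on almost subsets (90 lines)

`Tr_mono`: by `mem_Tr`; for `q ≤ r` the bad set for `r` is contained in the bad set for `q`.
`Ur_congr` and `Tr_congr` together by strong induction on `r` (`WellFoundedLT.induction`): if `Tr T0 Z' q = Tr T0 Z q` for
`q < r` then `Ur T0 Z' r s = Ur T0 Z r s =: U`. `s ∈ Tr T0 Z r ↔ s ∈ T0 ∨ (Z \ U).Finite`, the same for `Z'`. If
`(Z \ U).Finite` then `Z' \ U ⊆ (Z' \ Z) ∪ (Z \ U)` is finite. If `(Z' \ U).Finite` and not `(Z \ U).Finite` then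
`(Z ∩ U).Finite` (`NSp`), so `Z' ⊆ (Z' \ Z) ∪ (Z ∩ U) ∪ (Z' \ U)` would be finite.
-/

set_option autoImplicit false

open Set Cardinal

namespace Pool.Agent.H71.PW

open Pool.Agent.H60.AD Pool.Agent.H60.BS

variable {Ω : Type} [OmType Ω]

theorem Tr_mono (T0 : Set (Finset ℕ)) (Z : Set ℕ) {q r : Ω} (h : q ≤ r) :
    Tr T0 Z q ⊆ Tr T0 Z r := by
  intro s hs
  rw [mem_Tr] at hs ⊢
  rcases hs with hs | hs
  · exact Or.inl hs
  · refine Or.inr (hs.subset ?_)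
    rintro z ⟨hz, hn⟩
    refine ⟨hz, fun hc => hn ?_⟩
    obtain ⟨q', hq', hm⟩ := hc
    exact ⟨q', hq'.trans_le h, hm⟩

theorem mem_Tr' (T0 : Set (Finset ℕ)) (Z : Set ℕ) (r : Ω) (s : Finset ℕ) :
    s ∈ Tr T0 Z r ↔ s ∈ T0 ∨ (Z \ Ur T0 Z r s).Finite := by
  rw [mem_Tr]
  exact Iff.rfl

private theorem Rnk_Ur {T0 : Set (Finset ℕ)} {Z Z' : Set ℕ} {r : Ω}
    (h : ∀ q < r, Tr T0 Z' q = Tr T0 Z q) (s : Finset ℕ) : Ur T0 Z' r s = Ur T0 Z r s := by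
  ext z
  constructor
  · rintro ⟨q, hq, hm⟩
    exact ⟨q, hq, by rw [← h q hq]; exact hm⟩
  · rintro ⟨q, hq, hm⟩
    exact ⟨q, hq, by rw [h q hq]; exact hm⟩

theorem Tr_congr {T0 : Set (Finset ℕ)} {Z Z' : Set ℕ} (hZ' : Z'.Infinite) (hs : (Z' \ Z).Finite)
    {r : Ω} (h : ∀ q ≤ r, ∀ s, NSp Z (Ur T0 Z q s)) : Tr T0 Z' r = Tr T0 Z r := by
  induction r using (OmType.wf (Ω := Ω)).induction with
  | _ r ih =>
    have h1 : ∀ q < r, Tr T0 Z' q = Tr T0 Z q := fun q hq =>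
      ih q hq fun q' hq' s => h q' (hq'.trans hq.le) s
    ext s
    rw [mem_Tr', mem_Tr', Rnk_Ur h1 s]
    set U := Ur T0 Z r s with hU
    refine or_congr Iff.rfl ⟨fun hf => ?_, fun hf => ?_⟩
    · rcases h r le_rfl s with hn | hn
      · exfalso
        refine hZ' (((hs.union hn).union hf).subset ?_)
        intro z hz
        by_cases hzZ : z ∈ Z
        · by_cases hzU : z ∈ Ur T0 Z r s
          · exact Or.inl (Or.inr ⟨hzZ, hzU⟩)
          · exact Or.inr ⟨hz, hzU⟩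
        · exact Or.inl (Or.inl ⟨hz, hzZ⟩)
      · exact hn
    · refine (hs.union hf).subset ?_
      intro z hz
      by_cases hzZ : z ∈ Z
      · exact Or.inr ⟨hzZ, hz.2⟩
      · exact Or.inl ⟨hz.1, hzZ⟩

theorem Ur_congr {T0 : Set (Finset ℕ)} {Z Z' : Set ℕ} (hZ' : Z'.Infinite) (hs : (Z' \ Z).Finite)
    {r : Ω} (h : ∀ q < r, ∀ s, NSp Z (Ur T0 Z q s)) (s : Finset ℕ) :
    Ur T0 Z' r s = Ur T0 Z r s :=
  Rnk_Ur (fun _ hq => Tr_congr hZ' hs fun q' hq' s' => h q' (hq'.trans_lt hq) s') s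

end Pool.Agent.H71.PW
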